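import Pool.Agent.helper58.CRO.SpecB

/-! # Row cro:HVA: formulas for the Hamiltonian vector field on the region -/

open scoped Manifold ContDiff Topology ENNReal
open MeasureTheory Set

noncomputable section

namespace Pool.Agent.CRO

theorem HVA_dual {n : ℕ} (f : En n →L[ℝ] ℝ) (i : Fin n) :
    ((InnerProductSpace.toDual ℝ (En n)).symm f) i = f (EuclideanSpace.single i 1) := by
  have h1 := InnerProductSpace.toDual_symm_apply (𝕜 := ℝ) (E := En n)
    (x := EuclideanSpace.single i 1) (y := f)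
  rw [← h1, EuclideanSpace.inner_single_right]
  simp

theorem HVA_diff1 {n : ℕ} {H : PS n → ℝ} (hH : ContDiff ℝ ∞ H) (z : PS n) :
    DifferentiableAt ℝ (fun z => (hvf H z).1) z := by
  rw [differentiableAt_euclidean]
  intro i
  have h1 : (fun z => (hvf H z).1 i)
      = fun z => fderiv ℝ H z ((0, EuclideanSpace.single i 1) : PS n) := by
    ext z
    show ((InnerProductSpace.toDual ℝ (En n)).symm
      ((fderiv ℝ H z).comp (ContinuousLinearMap.inr ℝ (En n) (En n)))) i = _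
    rw [HVA_dual]
    rfl
  rw [h1]
  have h2 : Differentiable ℝ (fderiv ℝ H) :=
    (hH.fderiv_right (m := ∞) (by simp)).differentiable (by simp)
  exact (h2 z).clm_apply (differentiableAt_const _)

theorem HVA_diff2 {n : ℕ} {H : PS n → ℝ} (hH : ContDiff ℝ ∞ H) (z : PS n) :
    DifferentiableAt ℝ (fun z => (hvf H z).2) z := by
  rw [differentiableAt_euclidean]
  intro i
  have h1 : (fun z => (hvf H z).2 i)
      = fun z => -(fderiv ℝ H z ((EuclideanSpace.single i 1, 0) : PS n)) := by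
    ext z
    show -((InnerProductSpace.toDual ℝ (En n)).symm
      ((fderiv ℝ H z).comp (ContinuousLinearMap.inl ℝ (En n) (En n)))) i = _
    rw [HVA_dual]
    rfl
  rw [h1]
  have h2 : Differentiable ℝ (fderiv ℝ H) :=
    (hH.fderiv_right (m := ∞) (by simp)).differentiable (by simp)
  exact ((h2 z).clm_apply (differentiableAt_const _)).neg

theorem HVA_diff {n : ℕ} {H : PS n → ℝ} (hH : ContDiff ℝ ∞ H) (z : PS n) :
    DifferentiableAt ℝ (hvf H) z :=
  (HVA_diff1 hH z).prodMk (HVA_diff2 hH z)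

/-- the function `nrm2` is differentiable over the chart -/
theorem HVA_Gdiff {n : ℕ} {r0 : ℝ} (𝒢 : NChart n r0) {x : En n} (hx : ‖x‖ < r0) :
    DifferentiableAt ℝ 𝒢.G x := by
  have h1 : x ∈ Metric.ball (0 : En n) r0 := by rwa [mem_ball_zero_iff]
  exact ((𝒢.smooth x h1).contDiffAt (Metric.isOpen_ball.mem_nhds h1)).differentiableAt (by simp)

theorem HVA_ham {n : ℕ} {r0 : ℝ} (𝒢 : NChart n r0) {z : PS n} (hz : ‖z.1‖ < r0) :
    DifferentiableAt ℝ (ham 𝒢) z := by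
  have h1 : DifferentiableAt ℝ (fun z : PS n => 𝒢.G z.1) z :=
    (HVA_Gdiff 𝒢 hz).comp z differentiableAt_fst
  have h2 : DifferentiableAt ℝ (fun z : PS n => 𝒢.G z.1 z.2) z :=
    h1.clm_apply differentiableAt_snd
  have h3 : DifferentiableAt ℝ (fun z : PS n => inner ℝ (𝒢.G z.1 z.2) z.2) z :=
    h2.inner ℝ differentiableAt_snd
  have h4 : ham 𝒢 = fun z : PS n => (1 / 2 : ℝ) * inner ℝ (𝒢.G z.1 z.2) z.2 := by
    ext w
    unfold ham nrm2
    ring
  rw [h4]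
  exact h3.const_mul (1 / 2 : ℝ)

/-- the region is a neighbourhood of its points -/
theorem HVA_nhds {n : ℕ} {r0 r1 : ℝ} (𝒢 : NChart n r0) (h01 : r1 < r0) {z : PS n} (hz : ‖z.1‖ < r1)
    (hz2 : nrm2 𝒢 z < 2) : ∀ᶠ w in 𝓝 z, ‖w.1‖ < r1 ∧ nrm2 𝒢 w < 2 := by
  have h1 : ContinuousAt (fun w : PS n => ‖w.1‖) z := by fun_prop
  have h2 : ContinuousAt (nrm2 𝒢) z := by
    have h3 := (HVA_ham 𝒢 (hz.trans h01)).continuousAt
    have h4 : nrm2 𝒢 = fun w => 2 * ham 𝒢 w := by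
      ext w
      unfold ham
      ring
    rw [h4]
    exact continuousAt_const.mul h3
  exact (h1.eventually_lt continuousAt_const hz).and (h2.eventually_lt continuousAt_const hz2)

theorem HVA_hvf_eq {n : ℕ} {H H' : PS n → ℝ} {z : PS n} (h : H =ᶠ[𝓝 z] H') :
    hvf H z = hvf H' z := by
  unfold hvf
  rw [h.fderiv_eq]

/-- the derivative of `ham` in the direction of `p` -/
theorem HVA_ham_p {n : ℕ} {r0 : ℝ} (𝒢 : NChart n r0) {z : PS n} (hz : ‖z.1‖ < r0) :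
    (hvf (ham 𝒢) z).1 = 𝒢.G z.1 z.2 := by
  show (InnerProductSpace.toDual ℝ (En n)).symm
      ((fderiv ℝ (ham 𝒢) z).comp (ContinuousLinearMap.inr ℝ (En n) (En n))) = _
  rw [LinearIsometryEquiv.symm_apply_eq]
  have h1 : HasFDerivAt (ham 𝒢) (fderiv ℝ (ham 𝒢) z) ((z.1, z.2) : PS n) :=
    (HVA_ham 𝒢 hz).hasFDerivAt
  have h2 : HasFDerivAt (fun p : En n => ((z.1, p) : PS n))
      (ContinuousLinearMap.inr ℝ (En n) (En n)) z.2 := hasFDerivAt_prodMk_right z.1 z.2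
  have h3 := h1.comp z.2 h2
  ext v
  rw [InnerProductSpace.toDual_apply_apply]
  -- the derivative of the quadratic form
  have h4 : HasFDerivAt (fun p : En n => 𝒢.G z.1 p) (𝒢.G z.1) z.2 := (𝒢.G z.1).hasFDerivAt
  have h5 := (h4.inner ℝ (hasFDerivAt_id z.2))
  have h6 := h3.unique ((h5.const_mul (1 / 2 : ℝ)).congr_of_eventuallyEq (by
    apply Filter.Eventually.of_forall
    intro p
    show nrm2 𝒢 (z.1, p) / 2 = 1 / 2 * inner ℝ (𝒢.G z.1 p) (id p)
    unfold nrm2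
    simp only [id]
    ring))
  rw [h6]
  have h7 := (𝒢.pos z.1 hz).1 v z.2
  rw [real_inner_comm (𝒢.G z.1 z.2) v] at h7
  have h8 : inner ℝ v (𝒢.G z.1 z.2) = inner ℝ (𝒢.G z.1 z.2) v := real_inner_comm _ _
  simp [fderivInnerCLM_apply]
  linarith

theorem HVA : HVA_stmt := by
  intro n r0 r1 𝒢 H Φ hΦ z hz hz2
  have hEv : ∀ w : PS n, ‖w.1‖ < r1 → nrm2 𝒢 w < 2 → hvf H w = hvf (ham 𝒢) w := by
    intro w hw hw2
    apply HVA_hvf_eq
    filter_upwards [HVA_nhds 𝒢 hΦ.r1lt hw hw2] with y hy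
    exact hΦ.eqH y hy.1 hy.2
  have hG : ∀ w : PS n, ‖w.1‖ < r1 → nrm2 𝒢 w < 2 → (hvf H w).1 = 𝒢.G w.1 w.2 := by
    intro w hw hw2
    rw [hEv w hw hw2]
    exact HVA_ham_p 𝒢 (hw.trans hΦ.r1lt)
  refine ⟨hG z hz hz2, hEv z hz hz2, ?_⟩
  have h1 : HasFDerivAt (hvf H) (fderiv ℝ (hvf H) z) ((z.1, z.2) : PS n) :=
    (HVA_diff hΦ.smoothH z).hasFDerivAt
  have h2 : HasFDerivAt (fun p : En n => ((z.1, p) : PS n))
      (ContinuousLinearMap.inr ℝ (En n) (En n)) z.2 := hasFDerivAt_prodMk_right z.1 z.2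
  have h3 : HasFDerivAt (fun p : En n => (hvf H (z.1, p)).1) (Hpp H z) z.2 :=
    (ContinuousLinearMap.fst ℝ (En n) (En n)).hasFDerivAt.comp z.2 (h1.comp z.2 h2)
  have h4 : HasFDerivAt (fun p : En n => 𝒢.G z.1 p) (𝒢.G z.1) z.2 := (𝒢.G z.1).hasFDerivAt
  have h5 : ∀ᶠ p in 𝓝 z.2, ((z.1, p) : PS n) ∈ {w : PS n | ‖w.1‖ < r1 ∧ nrm2 𝒢 w < 2} := by
    have h6 : ContinuousAt (fun p : En n => ((z.1, p) : PS n)) z.2 := by fun_prop
    exact h6 (HVA_nhds 𝒢 hΦ.r1lt hz hz2)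
  refine h3.unique (h4.congr_of_eventuallyEq ?_)
  filter_upwards [h5] with p hp
  exact hG (z.1, p) hp.1 hp.2

end Pool.Agent.CRO
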