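import Pool.Agent.helper58.CRO.SpecB

/-! # Row cro:NDG: no conjugate points -/

open scoped Manifold ContDiff Topology ENNReal
open MeasureTheory Set

noncomputable section

namespace Pool.Agent.CRO

theorem NDG_near {n : ℕ} {r0 r1 L : ℝ} {𝒢 : NChart n r0} {H : PS n → ℝ} {Φ : ℝ → PS n → PS n}
    (h1 : HVA_stmt) (h2 : NRG_stmt) (hΦ : IsGFlow 𝒢 r1 H Φ) {z : PS n} {t : ℝ} (ht0 : 0 < t)
    (htL : t < L) (Ex : En n → En n) (D : Set (En n))
    (hexp : ∀ (c : ℝ → PS n) (T : ℝ), 0 ≤ T → T < L → (c 0).1 = z.1 → nrm2 𝒢 (c 0) < 1 →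
      (∀ t ∈ Icc 0 T, ‖(c t).1‖ < r0 ∧ HasDerivAt c (hvf (ham 𝒢) (c t)) t) →
      T • (c 0).2 ∈ D ∧ (c T).1 = Ex (T • (c 0).2))
    (p : En n) (hp : nrm2 𝒢 (z.1, p) < 1) (hb : ∀ s ∈ Icc 0 t, ‖(Φ s (z.1, p)).1‖ < r1) :
    t • p ∈ D ∧ (Φ t (z.1, p)).1 = Ex (t • p) := by
  have h3 := hexp (fun s => Φ s (z.1, p)) t ht0.le htL
    (by show (Φ 0 (z.1, p)).1 = z.1; rw [hΦ.zero])
    (by show nrm2 𝒢 (Φ 0 (z.1, p)) < 1; rw [hΦ.zero]; exact hp)
    (by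
      intro s hs
      refine ⟨(hb s hs).trans hΦ.r1lt, ?_⟩
      have h4 : nrm2 𝒢 (Φ s (z.1, p)) = nrm2 𝒢 (z.1, p) := by
        refine h2 n r0 r1 𝒢 H Φ hΦ (z.1, p) s hp ?_
        intro u hu
        rw [uIcc_of_le hs.1] at hu
        exact hb u ⟨hu.1, hu.2.trans hs.2⟩
      have h5 := (h1 n r0 r1 𝒢 H Φ hΦ (Φ s (z.1, p)) (hb s hs) (by rw [h4]; linarith)).2.1
      have h6 := hΦ.ode (z.1, p) s
      show HasDerivAt (fun s => Φ s (z.1, p)) (hvf (ham 𝒢) (Φ s (z.1, p))) s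
      rw [← h5]
      exact h6)
  rw [hΦ.zero] at h3
  exact h3

theorem NDG (h1 : HVA_stmt) (h2 : NRG_stmt) : NDG_stmt := by
  intro n r0 r1 L 𝒢 H Φ hΦ hE z t ht0 htL hz hb
  have hz0 : ‖z.1‖ < r0 := by
    have h3 := hb 0 ⟨le_rfl, ht0.le⟩
    rw [hΦ.zero] at h3
    exact h3.trans hΦ.r1lt
  obtain ⟨Ex, D, hD, _, hder, hexp⟩ := hE z.1 hz0
  have hcont : Continuous fun p : En n => ((z.1, p) : PS n) := by fun_prop
  have e1 : ∀ᶠ p in 𝓝 z.2, nrm2 𝒢 (z.1, p) < 1 := by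
    have h3 : Continuous fun p : En n => nrm2 𝒢 (z.1, p) := by
      unfold nrm2
      simp only
      fun_prop
    exact h3.continuousAt.eventually_lt continuousAt_const hz
  have e2 : ∀ᶠ p in 𝓝 z.2, ∀ s ∈ Icc 0 t, ‖(Φ s (z.1, p)).1‖ < r1 := by
    refine IsCompact.eventually_forall_of_forall_eventually isCompact_Icc ?_
    intro s hs
    have h3 : Continuous fun q : En n × ℝ => ‖(Φ q.2 (z.1, q.1)).1‖ := by
      have h4 : Continuous fun q : En n × ℝ => ((q.2, ((z.1, q.1) : PS n)) : ℝ × PS n) := by fun_prop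
      exact (continuous_fst.comp (hΦ.cont.comp h4)).norm
    exact (h3.continuousAt (x := (z.2, s))).eventually_lt continuousAt_const (hb s hs)
  have e3 : ∀ᶠ p in 𝓝 z.2, (Φ t (z.1, p)).1 = Ex (t • p) := by
    filter_upwards [e1, e2] with p hp hbp
    exact (NDG_near h1 h2 hΦ ht0 htL Ex D hexp p hp hbp).2
  have hmem : t • z.2 ∈ D := (NDG_near h1 h2 hΦ ht0 htL Ex D hexp z.2 hz hb).1
  obtain ⟨A, hA⟩ := hder _ hmem
  -- derivative of the left side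
  have d1 : HasFDerivAt (fun p : En n => (Φ t (z.1, p)).1) (BB Φ t z) z.2 := by
    have h3 : HasFDerivAt (Φ t) (fderiv ℝ (Φ t) z) ((z.1, z.2) : PS n) := (hΦ.diff t z).hasFDerivAt
    have h4 : HasFDerivAt (fun p : En n => ((z.1, p) : PS n))
        (ContinuousLinearMap.inr ℝ (En n) (En n)) z.2 := hasFDerivAt_prodMk_right z.1 z.2
    have h5 := h3.comp z.2 h4
    exact (ContinuousLinearMap.fst ℝ (En n) (En n)).hasFDerivAt.comp z.2 h5
  have d2 : HasFDerivAt (fun p : En n => Ex (t • p)) ((A : En n →L[ℝ] En n).comp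
      (t • ContinuousLinearMap.id ℝ (En n))) z.2 := by
    have h4 : HasFDerivAt (fun p : En n => t • p) (t • ContinuousLinearMap.id ℝ (En n)) z.2 :=
      (hasFDerivAt_id z.2).const_smul t
    exact HasFDerivAt.comp z.2 hA h4
  have d3 : BB Φ t z = (A : En n →L[ℝ] En n).comp (t • ContinuousLinearMap.id ℝ (En n)) :=
    d1.unique (d2.congr_of_eventuallyEq e3)
  have d4 : BB Φ t z = t • (A : En n →L[ℝ] En n) := by
    rw [d3]
    ext v i
    simp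
  have d5 : (BB Φ t z).det = t ^ Module.finrank ℝ (En n) * (A : En n →L[ℝ] En n).det := by
    rw [d4]
    show LinearMap.det ((t • (A : En n →L[ℝ] En n) : En n →L[ℝ] En n) : En n →ₗ[ℝ] En n) = _
    rw [ContinuousLinearMap.toLinearMap_smul, LinearMap.det_smul]
  rw [d5]
  refine mul_ne_zero (pow_ne_zero _ ht0.ne') ?_
  have h6 : IsUnit (LinearMap.det ((A.toLinearEquiv : En n ≃ₗ[ℝ] En n) : En n →ₗ[ℝ] En n)) :=
    LinearEquiv.isUnit_det' A.toLinearEquiv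
  exact h6.ne_zero

end Pool.Agent.CRO
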